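import Mathlib

set_option autoImplicit false

namespace Pool.Agent.MP_9de622_gt

/-- polar form of a vector in the plane -/
lemma exists_polar (a b : ℝ) :
    ∃ r u0 u1 : ℝ, 0 ≤ r ∧ u0 ^ 2 + u1 ^ 2 = 1 ∧ a = r * u0 ∧ b = r * u1 := by
  by_cases h : a ^ 2 + b ^ 2 = 0
  · have ha : a = 0 := by nlinarith [sq_nonneg a, sq_nonneg b]
    have hb : b = 0 := by nlinarith [sq_nonneg a, sq_nonneg b]
    exact ⟨0, 1, 0, le_rfl, by norm_num, by simp [ha], by simp [hb]⟩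
  · have hpos : 0 < a ^ 2 + b ^ 2 := lt_of_le_of_ne (by positivity) (Ne.symm h)
    have hs : 0 < Real.sqrt (a ^ 2 + b ^ 2) := Real.sqrt_pos.mpr hpos
    have hsq : Real.sqrt (a ^ 2 + b ^ 2) ^ 2 = a ^ 2 + b ^ 2 := Real.sq_sqrt hpos.le
    refine ⟨Real.sqrt (a ^ 2 + b ^ 2), a / Real.sqrt (a ^ 2 + b ^ 2),
      b / Real.sqrt (a ^ 2 + b ^ 2), hs.le, ?_, ?_, ?_⟩
    · rw [div_pow, div_pow, hsq, ← add_div, div_self h]
    · field_simp
    · field_simp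

lemma exists_sign (s t : ℝ) (h : t = s ^ 2) :
    ∃ e : ℝ, e ^ 2 = 1 ∧ e * Real.sqrt t = s := by
  subst h
  rw [Real.sqrt_sq_eq_abs]
  rcases le_total 0 s with hs | hs
  · exact ⟨1, by norm_num, by rw [abs_of_nonneg hs]; ring⟩
  · exact ⟨-1, by norm_num, by rw [abs_of_nonpos hs]; ring⟩

/-- The convex parameter domain. -/
def K (α β γ c : ℝ) : Set (ℝ × ℝ × ℝ) :=
  {p | p.2.1 ^ 2 ≤ p.1 ∧ p.2.2 ^ 2 ≤ 1 - p.1 ∧ c ≤ α * p.2.1 + β * p.2.2 + γ * p.1}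

lemma convex_K (α β γ c : ℝ) : Convex ℝ (K α β γ c) := by
  rintro ⟨z, a, b⟩ ⟨h1, h2, h3⟩ ⟨z', a', b'⟩ ⟨h1', h2', h3'⟩ s t hs ht hst
  simp only [K, Set.mem_ofPred_eq, Prod.smul_mk, Prod.mk_add_mk, smul_eq_mul] at *
  have ht' : t = 1 - s := by linarith
  subst ht'
  refine ⟨?_, ?_, ?_⟩
  · nlinarith [mul_nonneg hs ht, sq_nonneg (a - a'), mul_nonneg (mul_nonneg hs ht) (sq_nonneg (a - a')),
      mul_nonneg hs (sub_nonneg.mpr h1), mul_nonneg ht (sub_nonneg.mpr h1')]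
  · nlinarith [mul_nonneg hs ht, sq_nonneg (b - b'), mul_nonneg (mul_nonneg hs ht) (sq_nonneg (b - b')),
      mul_nonneg hs (sub_nonneg.mpr h2), mul_nonneg ht (sub_nonneg.mpr h2')]
  · nlinarith [mul_nonneg hs (sub_nonneg.mpr h3), mul_nonneg ht (sub_nonneg.mpr h3')]

/-- The four sheets over the parameter domain. -/
noncomputable def F (u0 u1 w0 w1 e d : ℝ) (p : ℝ × ℝ × ℝ) : Fin 4 → ℝ :=
  ![p.2.1 * u0 - e * Real.sqrt (p.1 - p.2.1 ^ 2) * u1,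
    p.2.1 * u1 + e * Real.sqrt (p.1 - p.2.1 ^ 2) * u0,
    p.2.2 * w0 - d * Real.sqrt (1 - p.1 - p.2.2 ^ 2) * w1,
    p.2.2 * w1 + d * Real.sqrt (1 - p.1 - p.2.2 ^ 2) * w0]

lemma continuous_F (u0 u1 w0 w1 e d : ℝ) : Continuous (F u0 u1 w0 w1 e d) := by
  refine continuous_pi fun i => ?_
  fin_cases i <;> simp only [F] <;> simp <;> fun_prop

/-- Every superlevel set on the unit 3-sphere of a function
`v0 x0 + v1 x1 + v2 x2 + v3 x3 + γ (x0^2 + x1^2)` is preconnected. -/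
theorem core (v0 v1 v2 v3 γ c : ℝ) :
    IsPreconnected {x : Fin 4 → ℝ | ∑ i, x i ^ 2 = 1 ∧
      c ≤ v0 * x 0 + v1 * x 1 + v2 * x 2 + v3 * x 3 + γ * (x 0 ^ 2 + x 1 ^ 2)} := by
  obtain ⟨α, u0, u1, hα, hu, rfl, rfl⟩ := exists_polar v0 v1
  obtain ⟨β, w0, w1, hβ, hw, rfl, rfl⟩ := exists_polar v2 v3
  set S := {x : Fin 4 → ℝ | ∑ i, x i ^ 2 = 1 ∧
      c ≤ α * u0 * x 0 + α * u1 * x 1 + β * w0 * x 2 + β * w1 * x 3 + γ * (x 0 ^ 2 + x 1 ^ 2)}
    with hS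
  -- each sheet lies in S
  have hsub : ∀ e d : ℝ, e ^ 2 = 1 → d ^ 2 = 1 → F u0 u1 w0 w1 e d '' K α β γ c ⊆ S := by
    rintro e d he hd _ ⟨⟨z, a, b⟩, ⟨h1, h2, h3⟩, rfl⟩
    simp only at h1 h2 h3
    have hs : Real.sqrt (z - a ^ 2) ^ 2 = z - a ^ 2 := Real.sq_sqrt (by linarith)
    have ht : Real.sqrt (1 - z - b ^ 2) ^ 2 = 1 - z - b ^ 2 := Real.sq_sqrt (by linarith)
    set s := Real.sqrt (z - a ^ 2) with hsdef
    set t := Real.sqrt (1 - z - b ^ 2) with htdef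
    have e1 : (a * u0 - e * s * u1) ^ 2 + (a * u1 + e * s * u0) ^ 2 = z := by
      have : (a * u0 - e * s * u1) ^ 2 + (a * u1 + e * s * u0) ^ 2
          = (a ^ 2 + e ^ 2 * s ^ 2) * (u0 ^ 2 + u1 ^ 2) := by ring
      rw [this, he, hs, hu]; ring
    have e2 : (b * w0 - d * t * w1) ^ 2 + (b * w1 + d * t * w0) ^ 2 = 1 - z := by
      have : (b * w0 - d * t * w1) ^ 2 + (b * w1 + d * t * w0) ^ 2
          = (b ^ 2 + d ^ 2 * t ^ 2) * (w0 ^ 2 + w1 ^ 2) := by ring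
      rw [this, hd, ht, hw]; ring
    have e3 : α * u0 * (a * u0 - e * s * u1) + α * u1 * (a * u1 + e * s * u0) = α * a := by
      have : α * u0 * (a * u0 - e * s * u1) + α * u1 * (a * u1 + e * s * u0)
          = α * a * (u0 ^ 2 + u1 ^ 2) := by ring
      rw [this, hu]; ring
    have e4 : β * w0 * (b * w0 - d * t * w1) + β * w1 * (b * w1 + d * t * w0) = β * b := by
      have : β * w0 * (b * w0 - d * t * w1) + β * w1 * (b * w1 + d * t * w0)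
          = β * b * (w0 ^ 2 + w1 ^ 2) := by ring
      rw [this, hw]; ring
    simp only [hS, Set.mem_ofPred_eq, Fin.sum_univ_four, F, Matrix.cons_val_zero,
      Matrix.cons_val_one, Matrix.cons_val]
    rw [← hsdef, ← htdef]
    constructor
    · linarith
    · rw [e1]; linarith
  -- each point of S lies on a sheet
  have hcov : ∀ x ∈ S, ∃ e d : ℝ, e ^ 2 = 1 ∧ d ^ 2 = 1 ∧
      x ∈ F u0 u1 w0 w1 e d '' K α β γ c := by
    rintro x ⟨hx1, hx2⟩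
    rw [Fin.sum_univ_four] at hx1
    have hA : (x 0 ^ 2 + x 1 ^ 2) - (x 0 * u0 + x 1 * u1) ^ 2 = (x 1 * u0 - x 0 * u1) ^ 2 := by
      have : (x 0 * u0 + x 1 * u1) ^ 2 + (x 1 * u0 - x 0 * u1) ^ 2
          = (x 0 ^ 2 + x 1 ^ 2) * (u0 ^ 2 + u1 ^ 2) := by ring
      rw [hu] at this; linarith
    have hB : 1 - (x 0 ^ 2 + x 1 ^ 2) - (x 2 * w0 + x 3 * w1) ^ 2 = (x 3 * w0 - x 2 * w1) ^ 2 := by
      have : (x 2 * w0 + x 3 * w1) ^ 2 + (x 3 * w0 - x 2 * w1) ^ 2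
          = (x 2 ^ 2 + x 3 ^ 2) * (w0 ^ 2 + w1 ^ 2) := by ring
      rw [hw] at this; linarith
    obtain ⟨e, he, hes⟩ := exists_sign _ _ hA
    obtain ⟨d, hd, hds⟩ := exists_sign _ _ hB
    refine ⟨e, d, he, hd, (x 0 ^ 2 + x 1 ^ 2, x 0 * u0 + x 1 * u1, x 2 * w0 + x 3 * w1),
      ⟨?_, ?_, ?_⟩, ?_⟩
    · simp only; nlinarith [sq_nonneg (x 1 * u0 - x 0 * u1)]
    · simp only; nlinarith [sq_nonneg (x 3 * w0 - x 2 * w1)]
    · simp only; linarith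
    · funext i
      fin_cases i
      · simp only [F, Fin.zero_eta, Matrix.cons_val_zero]
        rw [hes]; linear_combination (x 0) * hu
      · simp only [F, Fin.mk_one, Matrix.cons_val_one, Matrix.cons_val_zero]
        rw [hes]; linear_combination (x 1) * hu
      · simp only [F, Fin.reduceFinMk, Matrix.cons_val]
        rw [hds]; linear_combination (x 2) * hw
      · simp only [F, Fin.reduceFinMk, Matrix.cons_val]
        rw [hds]; linear_combination (x 3) * hw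
  rcases S.eq_empty_or_nonempty with hE | ⟨x0, hx0⟩
  · rw [hE]; exact isPreconnected_empty
  obtain ⟨e0, d0, -, -, ⟨z, a, b⟩, ⟨h1, h2, h3⟩, -⟩ := hcov x0 hx0
  simp only at h1 h2 h3
  have hz0 : 0 ≤ z := le_trans (sq_nonneg a) h1
  have hz1 : 0 ≤ 1 - z := le_trans (sq_nonneg b) h2
  have ha : a ≤ Real.sqrt z := Real.le_sqrt_of_sq_le h1
  have hb : b ≤ Real.sqrt (1 - z) := Real.le_sqrt_of_sq_le h2
  have hp0 : (z, Real.sqrt z, Real.sqrt (1 - z)) ∈ K α β γ c := by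
    refine ⟨?_, ?_, ?_⟩
    · simp only; rw [Real.sq_sqrt hz0]
    · simp only; rw [Real.sq_sqrt hz1]
    · simp only
      nlinarith [mul_le_mul_of_nonneg_left ha hα, mul_le_mul_of_nonneg_left hb hβ]
  have hsame : ∀ e d : ℝ, F u0 u1 w0 w1 e d (z, Real.sqrt z, Real.sqrt (1 - z))
      = F u0 u1 w0 w1 1 1 (z, Real.sqrt z, Real.sqrt (1 - z)) := by
    intro e d
    simp only [F, Real.sq_sqrt hz0, Real.sq_sqrt hz1, sub_self, Real.sqrt_zero, mul_zero]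
  refine isPreconnected_of_forall (F u0 u1 w0 w1 1 1 (z, Real.sqrt z, Real.sqrt (1 - z))) ?_
  intro y hy
  obtain ⟨e, d, he, hd, hy'⟩ := hcov y hy
  refine ⟨F u0 u1 w0 w1 e d '' K α β γ c, hsub e d he hd, ⟨_, hp0, hsame e d⟩, hy', ?_⟩
  exact (convex_K α β γ c).isPreconnected.image _ (continuous_F u0 u1 w0 w1 e d).continuousOn

end Pool.Agent.MP_9de622_gt
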