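import Pool.Agent.MP_9de622_gt.Core

set_option autoImplicit false

namespace Pool.Agent.MP_9de622_gt

/-- The graph of the quadratic form `x0^2 + x1^2`. -/
def graphMap (x : Fin 4 → ℝ) : Fin 5 → ℝ := ![x 0, x 1, x 2, x 3, x 0 ^ 2 + x 1 ^ 2]

/-- Projection to the first four coordinates. -/
noncomputable def proj : (Fin 5 → ℝ) →L[ℝ] (Fin 4 → ℝ) :=
  ContinuousLinearMap.pi fun i : Fin 4 => ContinuousLinearMap.proj (Fin.castSucc i)

lemma proj_graphMap (x : Fin 4 → ℝ) : proj (graphMap x) = x := by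
  funext i
  fin_cases i <;> simp [proj, graphMap]

lemma contDiff_graphMap : ContDiff ℝ ((⊤ : ℕ∞) : WithTop ℕ∞) graphMap := by
  refine contDiff_pi.mpr fun j => ?_
  fin_cases j <;> simp only [graphMap] <;> simp <;> fun_prop

lemma injective_graphMap : Function.Injective graphMap := by
  intro x y h
  rw [← proj_graphMap x, h, proj_graphMap]

lemma fderiv_graphMap (x w : Fin 4 → ℝ) (h : fderiv ℝ graphMap x w = 0) : w = 0 := by
  have hd : DifferentiableAt ℝ graphMap x :=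
    (contDiff_graphMap.differentiable (by simp)).differentiableAt
  have h1 : HasFDerivAt (fun y => proj (graphMap y)) (proj.comp (fderiv ℝ graphMap x)) x :=
    proj.hasFDerivAt.comp x hd.hasFDerivAt
  have h2 : (fun y => proj (graphMap y)) = id := by
    funext y; simp [proj_graphMap]
  rw [h2] at h1
  have h3 : proj.comp (fderiv ℝ graphMap x) = ContinuousLinearMap.id ℝ (Fin 4 → ℝ) :=
    h1.unique (hasFDerivAt_id x)
  have h4 := congrArg (fun L : (Fin 4 → ℝ) →L[ℝ] (Fin 4 → ℝ) => L w) h3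
  simp only [ContinuousLinearMap.comp_apply, h, map_zero, ContinuousLinearMap.id_apply] at h4
  exact h4.symm

lemma height_graphMap (v : Fin 5 → ℝ) (x : Fin 4 → ℝ) :
    ∑ j, v j * graphMap x j
      = v 0 * x 0 + v 1 * x 1 + v 2 * x 2 + v 3 * x 3 + v 4 * (x 0 ^ 2 + x 1 ^ 2) := by
  simp [Fin.sum_univ_five, graphMap]

lemma tpp_graphMap (v : Fin 5 → ℝ) (c : ℝ) :
    IsPreconnected {x : Fin 4 → ℝ | ∑ i, x i ^ 2 = 1 ∧ c ≤ ∑ j, v j * graphMap x j} := by
  simp only [height_graphMap]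
  exact core (v 0) (v 1) (v 2) (v 3) (v 4) c

lemma substantial_graphMap :
    ¬ ∃ v : Fin 5 → ℝ, v ≠ 0 ∧ ∃ c : ℝ,
      ∀ x : Fin 4 → ℝ, ∑ i, x i ^ 2 = 1 → ∑ j, v j * graphMap x j = c := by
  rintro ⟨v, hv, c, h⟩
  simp only [height_graphMap] at h
  have h0 := h ![1, 0, 0, 0] (by simp [Fin.sum_univ_four])
  have h0' := h ![-1, 0, 0, 0] (by simp [Fin.sum_univ_four])
  have h1 := h ![0, 1, 0, 0] (by simp [Fin.sum_univ_four])
  have h2 := h ![0, 0, 1, 0] (by simp [Fin.sum_univ_four])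
  have h2' := h ![0, 0, -1, 0] (by simp [Fin.sum_univ_four])
  have h3 := h ![0, 0, 0, 1] (by simp [Fin.sum_univ_four])
  simp at h0 h0' h1 h2 h2' h3
  apply hv
  funext j
  fin_cases j <;> simp <;> linarith

end Pool.Agent.MP_9de622_gt
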