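import Pool.Agent.MP_9de622_gt.Core

set_option autoImplicit false

namespace Pool.Agent.MP_9de622_gt.Herm

open Matrix Set

section General
variable {ι : Type} [Fintype ι]

/-- A convex set that contains a line direction and a transverse ray direction cuts the unit sphere
in a connected set. -/
theorem sphere_inter {C : Set (ι → ℝ)} (hC : Convex ℝ C) {u w : ι → ℝ} (hu : u ⬝ᵥ u = 1)
    (hw : w ⬝ᵥ w = 1) (huw : w ⬝ᵥ u = 0) (h1 : ∀ x ∈ C, ∀ t : ℝ, x + t • u ∈ C)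
    (h2 : ∀ x ∈ C, ∀ t : ℝ, 0 ≤ t → x + t • w ∈ C) :
    IsPreconnected {x | x ⬝ᵥ x = 1 ∧ x ∈ C} := by
  let D : Set (ι → ℝ) := {y | y ∈ C ∧ y ⬝ᵥ u = 0 ∧ y ⬝ᵥ y ≤ 1}
  have hD : Convex ℝ D := by
    rintro x ⟨a1, a2, a3⟩ y ⟨b1, b2, b3⟩ s t hs ht hst
    refine ⟨hC a1 b1 hs ht hst, by simp [a2, b2], ?_⟩
    have h0 : 0 ≤ (x - y) ⬝ᵥ (x - y) := Finset.sum_nonneg fun i _ => mul_self_nonneg _
    simp only [add_dotProduct, dotProduct_add, smul_dotProduct, dotProduct_smul, smul_eq_mul,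
      sub_dotProduct, dotProduct_sub] at h0 ⊢
    obtain rfl : t = 1 - s := by linarith
    nlinarith [mul_nonneg (mul_nonneg hs ht) h0, mul_nonneg hs (sub_nonneg.2 a3),
      mul_nonneg ht (sub_nonneg.2 b3)]
  let F : ℝ → (ι → ℝ) → ι → ℝ := fun e y => y + (e * √(1 - y ⬝ᵥ y)) • u
  have hF : ∀ e, IsPreconnected (F e '' D) := fun e =>
    hD.isPreconnected.image _ (Continuous.continuousOn (by
      simp only [F, dotProduct]; fun_prop))
  have hsub : ∀ e : ℝ, e ^ 2 = 1 → F e '' D ⊆ {x | x ⬝ᵥ x = 1 ∧ x ∈ C} := by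
    rintro e he _ ⟨y, ⟨a1, a2, a3⟩, rfl⟩
    refine ⟨?_, h1 y a1 _⟩
    have h3 := Real.sq_sqrt (sub_nonneg.2 a3)
    simp only [F, add_dotProduct, dotProduct_add, smul_dotProduct, dotProduct_smul, smul_eq_mul,
      a2, dotProduct_comm u y, hu]
    linear_combination (√(1 - y ⬝ᵥ y)) ^ 2 * he + h3
  have heq : {x | x ⬝ᵥ x = 1 ∧ x ∈ C} = F 1 '' D ∪ F (-1) '' D := by
    refine Subset.antisymm ?_ (union_subset (hsub 1 (by norm_num)) (hsub (-1) (by norm_num)))
    rintro x ⟨a1, a2⟩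
    have e1 : (x + (-(x ⬝ᵥ u)) • u) ⬝ᵥ (x + (-(x ⬝ᵥ u)) • u) = 1 - (x ⬝ᵥ u) ^ 2 := by
      simp only [add_dotProduct, dotProduct_add, smul_dotProduct, dotProduct_smul, smul_eq_mul,
        dotProduct_comm u x, hu, a1]
      ring
    have e2 : x + (-(x ⬝ᵥ u)) • u ∈ D :=
      ⟨h1 x a2 _, by simp [hu], by rw [e1]; linarith [sq_nonneg (x ⬝ᵥ u)]⟩
    have e3 : ∀ e : ℝ, e * |x ⬝ᵥ u| = x ⬝ᵥ u → F e (x + (-(x ⬝ᵥ u)) • u) = x := fun e he => by
      simp only [F]
      rw [e1, sub_sub_cancel, Real.sqrt_sq_eq_abs, he, add_assoc, ← add_smul, neg_add_cancel,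
        zero_smul, add_zero]
    rcases le_total 0 (x ⬝ᵥ u) with h | h
    · exact Or.inl ⟨_, e2, e3 1 (by rw [abs_of_nonneg h, one_mul])⟩
    · exact Or.inr ⟨_, e2, e3 (-1) (by rw [abs_of_nonpos h]; ring)⟩
  rw [heq]
  rcases D.eq_empty_or_nonempty with h | ⟨y, a1, a2, a3⟩
  · simp [h, isPreconnected_empty]
  have h3 : 0 ≤ (y ⬝ᵥ w) ^ 2 + (1 - y ⬝ᵥ y) := by linarith [sq_nonneg (y ⬝ᵥ w)]
  have h4 := Real.sq_sqrt h3
  have h5 : 0 ≤ √((y ⬝ᵥ w) ^ 2 + (1 - y ⬝ᵥ y)) - y ⬝ᵥ w :=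
    sub_nonneg.2 (Real.le_sqrt_of_sq_le (by linarith))
  set t := √((y ⬝ᵥ w) ^ 2 + (1 - y ⬝ᵥ y)) - y ⬝ᵥ w with ht
  have e1 : (y + t • w) ⬝ᵥ (y + t • w) = 1 := by
    simp only [add_dotProduct, dotProduct_add, smul_dotProduct, dotProduct_smul, smul_eq_mul,
      dotProduct_comm w y, hw]
    rw [ht]
    linear_combination h4
  have e2 : y + t • w ∈ D := ⟨h2 y a1 t h5, by simp [a2, huw], e1.le⟩
  have e3 : ∀ e, F e (y + t • w) = y + t • w := fun e => by
    simp only [F]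
    rw [e1, sub_self, Real.sqrt_zero, mul_zero, zero_smul, add_zero]
  exact IsPreconnected.union _ ⟨_, e2, e3 1⟩ ⟨_, e2, e3 (-1)⟩ (hF 1) (hF (-1))

/-- The kernel of a nonnegative form. -/
theorem ker_form {P : (ι → ℝ) →ₗ[ℝ] (ι → ℝ) →ₗ[ℝ] ℝ} (hP : ∀ x, 0 ≤ P x x) {z : ι → ℝ}
    (hz : P z z = 0) (y : ι → ℝ) : P y z + P z y = 0 := by
  have h : ∀ t : ℝ, 0 ≤ 0 * (t * t) + (P y z + P z y) * t + P y y := fun t => by
    have := hP (y + t • z)
    simp only [map_add, map_smul, LinearMap.add_apply, LinearMap.smul_apply, smul_eq_mul,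
      hz] at this
    linarith
  have h2 := discrim_le_zero h
  rw [discrim] at h2
  nlinarith [sq_nonneg (P y z + P z y)]

theorem exists_unit {x : ι → ℝ} (hx : x ≠ 0) : ∃ (t : ℝ) (y : ι → ℝ), y ⬝ᵥ y = 1 ∧ x = t • y := by
  have h0 : 0 ≤ x ⬝ᵥ x := Finset.sum_nonneg fun i _ => mul_self_nonneg _
  have h1 : 0 < x ⬝ᵥ x := lt_of_le_of_ne h0 fun h => hx (dotProduct_self_eq_zero.1 h.symm)
  have h2 := Real.sqrt_pos.2 h1
  refine ⟨√(x ⬝ᵥ x), (√(x ⬝ᵥ x))⁻¹ • x, ?_, by rw [smul_smul, mul_inv_cancel₀ h2.ne', one_smul]⟩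
  rw [smul_dotProduct, dotProduct_smul, smul_eq_mul, smul_eq_mul]
  have h3 := Real.mul_self_sqrt h0
  field_simp
  linarith

/-- A bound of a form on the unit sphere extends by homogeneity. -/
theorem form_le {B : (ι → ℝ) →ₗ[ℝ] (ι → ℝ) →ₗ[ℝ] ℝ} {l : ℝ}
    (h : ∀ x, x ⬝ᵥ x = 1 → B x x ≤ l) (x : ι → ℝ) : B x x ≤ l * (x ⬝ᵥ x) := by
  by_cases hx : x = 0
  · simp [hx]
  obtain ⟨t, y, hy, rfl⟩ := exists_unit hx
  simp only [map_smul, LinearMap.smul_apply, smul_eq_mul, smul_dotProduct, dotProduct_smul, hy]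
  nlinarith [mul_le_mul_of_nonneg_left (h y hy) (mul_self_nonneg t)]

/-- Superlevel sets on the sphere of a linear function plus a form whose maximum is attained at
two orthogonal points are connected. -/
theorem tpp_form (B : (ι → ℝ) →ₗ[ℝ] (ι → ℝ) →ₗ[ℝ] ℝ) {l : ℝ} (h : ∀ x, x ⬝ᵥ x = 1 → B x x ≤ l)
    {x0 x1 : ι → ℝ} (h0 : x0 ⬝ᵥ x0 = 1) (h1 : x1 ⬝ᵥ x1 = 1) (h01 : x0 ⬝ᵥ x1 = 0)
    (b0 : B x0 x0 = l) (b1 : B x1 x1 = l) (v : ι → ℝ) (c : ℝ) :
    IsPreconnected {x | x ⬝ᵥ x = 1 ∧ c ≤ v ⬝ᵥ x + B x x} := by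
  let P : (ι → ℝ) →ₗ[ℝ] (ι → ℝ) →ₗ[ℝ] ℝ := l • dotProductBilin ℝ ℝ - B
  have hPe : ∀ x y, P x y = l * (x ⬝ᵥ y) - B x y := fun x y => rfl
  have hP : ∀ x, 0 ≤ P x x := fun x => by rw [hPe]; linarith [form_le h x]
  have p0 : P x0 x0 = 0 := by rw [hPe, h0, b0]; ring
  have p1 : P x1 x1 = 0 := by rw [hPe, h1, b1]; ring
  have hk : ∀ (s t : ℝ) (x : ι → ℝ), P (x + (s • x0 + t • x1)) (x + (s • x0 + t • x1)) = P x x := by
    intro s t x
    simp only [map_add, map_smul, LinearMap.add_apply, LinearMap.smul_apply, smul_eq_mul, p0, p1]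
    linear_combination s * ker_form hP p0 x + t * ker_form hP p1 x + s * t * ker_form hP p0 x1
  obtain ⟨r, a, b, hr, hab, ha, hb⟩ := exists_polar (v ⬝ᵥ x0) (v ⬝ᵥ x1)
  have e : {x | x ⬝ᵥ x = 1 ∧ c ≤ v ⬝ᵥ x + B x x}
      = {x | x ⬝ᵥ x = 1 ∧ x ∈ {x | c ≤ v ⬝ᵥ x + l - P x x}} := by
    ext x
    refine and_congr_right fun hx => ?_
    rw [mem_ofPred_eq, hPe, hx]
    constructor <;> intro h <;> linarith
  rw [e]
  refine sphere_inter (u := (-b) • x0 + a • x1) (w := a • x0 + b • x1) ?_ ?_ ?_ ?_ ?_ ?_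
  · intro x hx y hy s t hs ht hst
    have h3 := hP (x - y)
    obtain rfl : t = 1 - s := by linarith
    simp only [mem_ofPred_eq, map_add, map_sub, map_smul, LinearMap.add_apply, LinearMap.sub_apply,
      LinearMap.smul_apply, smul_eq_mul, dotProduct_add, dotProduct_smul] at hx hy h3 ⊢
    nlinarith [mul_nonneg (mul_nonneg hs ht) h3, mul_le_mul_of_nonneg_left hx hs,
      mul_le_mul_of_nonneg_left hy ht]
  · simp only [add_dotProduct, dotProduct_add, smul_dotProduct, dotProduct_smul, smul_eq_mul,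
      h0, h1, h01, dotProduct_comm x1 x0]
    linear_combination hab
  · simp only [add_dotProduct, dotProduct_add, smul_dotProduct, dotProduct_smul, smul_eq_mul,
      h0, h1, h01, dotProduct_comm x1 x0]
    linear_combination hab
  · simp only [add_dotProduct, dotProduct_add, smul_dotProduct, dotProduct_smul, smul_eq_mul,
      h0, h1, h01, dotProduct_comm x1 x0]
    ring
  · intro x hx t
    rw [mem_ofPred_eq, smul_add, smul_smul, smul_smul, hk] at *
    simp only [dotProduct_add, dotProduct_smul, smul_eq_mul, ha, hb]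
    linarith
  · intro x hx t ht
    rw [mem_ofPred_eq, smul_add, smul_smul, smul_smul, hk] at *
    simp only [dotProduct_add, dotProduct_smul, smul_eq_mul, ha, hb]
    have : t * a * (r * a) + t * b * (r * b) = t * r := by linear_combination t * r * hab
    linarith [mul_nonneg ht hr]

end General

section Forms
variable {d k r : ℕ} (e : (Fin k ⊕ Fin k) ⊕ Fin r ≃ Fin d)

/-- real parts -/
def re (x : Fin d → ℝ) (i : Fin k) : ℝ := x (e (.inl (.inl i)))

/-- imaginary parts -/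
def im (x : Fin d → ℝ) (i : Fin k) : ℝ := x (e (.inl (.inr i)))

/-- multiplication by the imaginary unit -/
def J (x : Fin d → ℝ) : Fin d → ℝ := fun l =>
  Sum.elim (Sum.elim (fun i => -im e x i) (re e x)) 0 (e.symm l)

/-- the basic Hermitian forms -/
def Q (p : Fin k × Fin k) (x y : Fin d → ℝ) : ℝ :=
  re e x p.1 * re e y p.2 + im e x p.1 * im e y p.2 - re e x p.1 * im e y p.2
    + im e x p.1 * re e y p.2

/-- combinations of the basic forms -/
def Bf (M : Fin k × Fin k → ℝ) : (Fin d → ℝ) →ₗ[ℝ] (Fin d → ℝ) →ₗ[ℝ] ℝ :=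
  LinearMap.mk₂ ℝ (fun x y => ∑ p, M p * Q e p x y)
    (fun x x' y => by
      rw [← Finset.sum_add_distrib]
      exact Finset.sum_congr rfl fun p _ => by simp only [Q, re, im, Pi.add_apply]; ring)
    (fun t x y => by
      rw [smul_eq_mul, Finset.mul_sum]
      exact Finset.sum_congr rfl fun p _ => by
        simp only [Q, re, im, Pi.smul_apply, smul_eq_mul]; ring)
    (fun x y y' => by
      rw [← Finset.sum_add_distrib]
      exact Finset.sum_congr rfl fun p _ => by simp only [Q, re, im, Pi.add_apply]; ring)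
    (fun t x y => by
      rw [smul_eq_mul, Finset.mul_sum]
      exact Finset.sum_congr rfl fun p _ => by
        simp only [Q, re, im, Pi.smul_apply, smul_eq_mul]; ring)

theorem Bf_apply (M : Fin k × Fin k → ℝ) (x y : Fin d → ℝ) :
    Bf e M x y = ∑ p, M p * Q e p x y := rfl

theorem re_J (x : Fin d → ℝ) (i : Fin k) : re e (J e x) i = -im e x i := by simp [re, J]

theorem im_J (x : Fin d → ℝ) (i : Fin k) : im e (J e x) i = re e x i := by simp [im, J]

theorem dot_eq (x y : Fin d → ℝ) : x ⬝ᵥ y = ∑ i, re e x i * re e y i + ∑ i, im e x i * im e y i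
    + ∑ t, x (e (.inr t)) * y (e (.inr t)) := by
  rw [dotProduct, ← e.sum_comp, Fintype.sum_sum_type, Fintype.sum_sum_type]
  rfl

theorem dot_J (x y : Fin d → ℝ) :
    x ⬝ᵥ J e y = -∑ i, re e x i * im e y i + ∑ i, im e x i * re e y i := by
  rw [dot_eq e]
  simp [re_J, im_J, J]

theorem Bf_J (M : Fin k × Fin k → ℝ) (x : Fin d → ℝ) :
    Bf e M (J e x) (J e x) = Bf e M x x :=
  Finset.sum_congr rfl fun p _ => by simp only [Q, re_J, im_J]; ring

/-- the vector with given real and imaginary parts -/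
def vec (a b : Fin k → ℝ) : Fin d → ℝ := fun l => Sum.elim (Sum.elim a b) 0 (e.symm l)

theorem re_vec (a b : Fin k → ℝ) : re e (vec e a b) = a := funext fun i => by simp [re, vec]

theorem im_vec (a b : Fin k → ℝ) : im e (vec e a b) = b := funext fun i => by simp [im, vec]

theorem vec_unit (i : Fin k) : vec e (Pi.single i 1) 0 ⬝ᵥ vec e (Pi.single i 1) 0 = 1 := by
  rw [dot_eq e, re_vec, im_vec]
  simp [vec, Pi.single_apply]

theorem Bf_vec (M : Fin k × Fin k → ℝ) (a b : Fin k → ℝ) :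
    Bf e M (vec e a b) (vec e a b)
      = ∑ i, ∑ j, M (i, j) * (a i * a j + b i * b j - a i * b j + b i * a j) := by
  rw [Bf_apply, Fintype.sum_prod_type]
  simp only [Q, re_vec, im_vec]

theorem Bf_diag (M : Fin k × Fin k → ℝ) (i : Fin k) :
    Bf e M (vec e (Pi.single i 1) 0) (vec e (Pi.single i 1) 0) = M (i, i) := by
  rw [Bf_vec]
  simp [Pi.single_apply]

/-- the two-piece property for a linear function plus a Hermitian form -/
theorem tpp_herm (M : Fin k × Fin k → ℝ) {i0 : Fin k} (hM : M (i0, i0) = 0) (v : Fin d → ℝ)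
    (c : ℝ) : IsPreconnected {x | x ⬝ᵥ x = 1 ∧ c ≤ v ⬝ᵥ x + Bf e M x x} := by
  have hc : IsCompact {x : Fin d → ℝ | x ⬝ᵥ x = 1} := by
    refine Metric.isCompact_of_isClosed_isBounded
      (isClosed_eq (by simp only [dotProduct]; fun_prop) continuous_const)
      ((Metric.isBounded_closedBall (x := 0) (r := 1)).subset fun x hx => ?_)
    rw [mem_closedBall_zero_iff, pi_norm_le_iff_of_nonneg zero_le_one]
    intro i
    rw [Real.norm_eq_abs, ← sq_le_one_iff_abs_le_one, sq]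
    exact (Finset.single_le_sum (f := fun i => x i * x i) (fun i _ => mul_self_nonneg _)
      (Finset.mem_univ i)).trans_eq hx
  obtain ⟨x0, hx0, hmax⟩ := hc.exists_isMaxOn (f := fun x => Bf e M x x) ⟨_, vec_unit e i0⟩
    (Continuous.continuousOn (by simp only [Bf_apply, Q, re, im]; fun_prop))
  have h : ∀ x, x ⬝ᵥ x = 1 → Bf e M x x ≤ Bf e M x0 x0 := fun x hx => hmax hx
  have hJ : ∀ z, J e z ⬝ᵥ J e z = ∑ i, re e z i * re e z i + ∑ i, im e z i * im e z i := by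
    intro z
    rw [dot_J]
    simp [re_J, im_J, add_comm]
  obtain ⟨z, hz1, hz2⟩ : ∃ z, J e z ⬝ᵥ J e z = 1 ∧ Bf e M z z = Bf e M x0 x0 := by
    have h0 := h _ (vec_unit e i0)
    rw [Bf_diag, hM] at h0
    rcases h0.eq_or_lt with h1 | h1
    · refine ⟨vec e (Pi.single i0 1) 0, ?_, by rw [Bf_diag, hM, h1]⟩
      rw [hJ, re_vec, im_vec]
      simp [Pi.single_apply]
    · refine ⟨x0, le_antisymm ?_ ?_, rfl⟩
      · have h2 := dot_eq e x0 x0
        rw [show x0 ⬝ᵥ x0 = 1 from hx0, ← hJ] at h2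
        linarith [Finset.sum_nonneg (s := Finset.univ)
          fun t _ => mul_self_nonneg (x0 (e (.inr t)))]
      · have h2 := form_le h (J e x0)
        rw [Bf_J] at h2
        nlinarith
  refine tpp_form _ h (x0 := J e z) (x1 := J e (J e z)) hz1 ?_ ?_ (by rw [Bf_J, hz2])
    (by rw [Bf_J, Bf_J, hz2]) v c
  · rw [hJ] at hz1 ⊢
    simpa [re_J, im_J, add_comm] using hz1
  · rw [dot_J]
    simp [mul_comm]

/-- the basic forms are independent -/
theorem Bf_inj {M : Fin k × Fin k → ℝ} (h : ∀ x, Bf e M x x = 0) : M = 0 := by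
  have h1 : ∀ i, M (i, i) = 0 := fun i => by rw [← Bf_diag e M i, h]
  funext ⟨i, j⟩
  have h2 := h (vec e (Pi.single i 1 + Pi.single j 1) 0)
  have h3 := h (vec e (Pi.single i 1) (Pi.single j 1))
  rw [Bf_vec] at h2 h3
  simp [Pi.single_apply, mul_add, add_mul, mul_sub, Finset.sum_add_distrib,
    Finset.sum_sub_distrib, h1] at h2 h3
  rw [Pi.zero_apply]
  linarith

/-- the graph of a family of basic forms -/
def gr {m : ℕ} (s : Fin m → Fin k × Fin k) (x : Fin d → ℝ) : Fin (d + m) → ℝ :=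
  Fin.append x fun j => Q e (s j) x x

theorem height {m : ℕ} (s : Fin m → Fin k × Fin k) (v : Fin (d + m) → ℝ) (x : Fin d → ℝ) :
    ∑ j, v j * gr e s x j = (fun i => v (Fin.castAdd m i)) ⬝ᵥ x
      + Bf e (fun p => ∑ j, if s j = p then v (Fin.natAdd d j) else 0) x x := by
  rw [Fin.sum_univ_add, Bf_apply]
  simp only [gr, Fin.append_left, Fin.append_right, Finset.sum_mul, ite_mul, zero_mul]
  rw [Finset.sum_comm]
  simp [dotProduct]

theorem smooth_gr {m : ℕ} (s : Fin m → Fin k × Fin k) :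
    ContDiff ℝ ((⊤ : ℕ∞) : WithTop ℕ∞) (gr e s) := by
  refine contDiff_pi.2 fun j => ?_
  refine Fin.addCases (fun i => ?_) (fun i => ?_) j
  · simp only [gr, Fin.append_left]; fun_prop
  · simp only [gr, Fin.append_right, Q, re, im]; fun_prop

theorem fderiv_gr {m : ℕ} (s : Fin m → Fin k × Fin k) (x w : Fin d → ℝ)
    (h : fderiv ℝ (gr e s) x w = 0) : w = 0 := by
  let L : (Fin (d + m) → ℝ) →L[ℝ] (Fin d → ℝ) :=
    ContinuousLinearMap.pi fun i => ContinuousLinearMap.proj (Fin.castAdd m i)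
  have h1 := L.hasFDerivAt.comp x ((smooth_gr e s).differentiable (by simp) x).hasFDerivAt
  have h2 : L ∘ gr e s = id := by
    funext y i
    simp [L, gr]
  rw [h2] at h1
  have h3 := congrArg (fun T : (Fin d → ℝ) →L[ℝ] (Fin d → ℝ) => T w) (h1.unique (hasFDerivAt_id x))
  simpa [h] using h3.symm

theorem substantial_gr {m : ℕ} {s : Fin m → Fin k × Fin k} (hs : Function.Injective s)
    {i0 : Fin k} (h0 : ∀ j, s j ≠ (i0, i0)) {v : Fin (d + m) → ℝ} {c : ℝ}
    (h : ∀ x, x ⬝ᵥ x = 1 → ∑ j, v j * gr e s x j = c) : v = 0 := by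
  simp only [height] at h
  set M : Fin k × Fin k → ℝ := fun p => ∑ j, if s j = p then v (Fin.natAdd d j) else 0 with hM
  have h1 : ∀ x, x ⬝ᵥ x = 1 → (fun i => v (Fin.castAdd m i)) ⬝ᵥ x = 0 ∧ Bf e M x x = c := by
    intro x hx
    have a1 := h x hx
    have a2 := h (-x) (by simpa using hx)
    simp only [map_neg, LinearMap.neg_apply, neg_neg, dotProduct_neg] at a2
    constructor <;> linarith
  have h2 : c = 0 := by
    rw [← (h1 _ (vec_unit e i0)).2, Bf_diag]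
    simp [hM, h0]
  have h3 : M = 0 := Bf_inj e fun x => by
    by_cases hx : x = 0
    · simp [hx]
    obtain ⟨t, y, hy, rfl⟩ := exists_unit hx
    simp [(h1 y hy).2, h2]
  funext j
  refine Fin.addCases (fun i => ?_) (fun i => ?_) j
  · simpa using (h1 (Pi.single i 1) (by simp)).1
  · simpa [hM, hs.eq_iff] using congrFun h3 (s i)

end Forms

theorem main (n N : ℕ) (hn : 1 ≤ n) (h1 : n + 1 ≤ N) (h2 : N ≤ n + ((n + 1) / 2) ^ 2) :
    ∃ f : (Fin (n + 1) → ℝ) → (Fin N → ℝ),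
      ContDiff ℝ ((⊤ : ℕ∞) : WithTop ℕ∞) f ∧ Function.Injective f ∧
      (∀ x w, fderiv ℝ f x w = 0 → w = 0) ∧
      (∀ (v : Fin N → ℝ) (c : ℝ), IsPreconnected {x | x ⬝ᵥ x = 1 ∧ c ≤ ∑ j, v j * f x j}) ∧
      ∀ (v : Fin N → ℝ) (c : ℝ), (∀ x, x ⬝ᵥ x = 1 → ∑ j, v j * f x j = c) → v = 0 := by
  obtain ⟨m, rfl⟩ := Nat.exists_eq_add_of_le h1
  obtain ⟨e⟩ : Nonempty ((Fin ((n + 1) / 2) ⊕ Fin ((n + 1) / 2)) ⊕ Fin ((n + 1) % 2)
      ≃ Fin (n + 1)) := ⟨Fintype.equivFinOfCardEq (by simp; omega)⟩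
  let i0 : Fin ((n + 1) / 2) := ⟨0, by omega⟩
  obtain ⟨s⟩ : Nonempty (Fin m ↪ {p : Fin ((n + 1) / 2) × Fin ((n + 1) / 2) // p ≠ (i0, i0)}) :=
    Function.Embedding.nonempty_of_card_le (by
      simp only [Fintype.card_fin, Fintype.card_subtype_compl, Fintype.card_prod,
        Fintype.card_unique]
      rw [← sq]
      omega)
  refine ⟨gr e fun j => (s j).1, smooth_gr e _, fun x y h => funext fun i => ?_, fderiv_gr e _,
    fun v c => ?_, fun v c h => substantial_gr e (Subtype.val_injective.comp s.injective)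
      (fun j => (s j).2) h⟩
  · simpa [gr] using congrFun h (Fin.castAdd m i)
  · simp only [height]
    exact tpp_herm e _ (i0 := i0) (by simp [fun j => (s j).2]) _ c

end Pool.Agent.MP_9de622_gt.Herm
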