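import Mathlib

/-! Spaces of symmetric forms all of whose singular nonnegative members have corank at least two. -/

set_option autoImplicit false

namespace Pool.Agent.MP_9de622_gt.Quad

open Module Submodule LinearMap

theorem root_odd (n : ℕ) : ∀ p : Polynomial ℝ, p.natDegree = n → Odd n → ∃ x, p.IsRoot x := by
  induction n using Nat.strong_induction_on with
  | _ n ih =>
    intro p hp hn
    have h0 : 0 < p.natDegree := hp ▸ hn.pos
    obtain ⟨q, hq, s, rfl⟩ := Polynomial.exists_irreducible_of_natDegree_pos h0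
    have hs : s ≠ 0 := by rintro rfl; simp at h0
    rw [Polynomial.natDegree_mul hq.ne_zero hs] at hp
    have h1 := hq.natDegree_le_two
    have h2 := hq.natDegree_pos
    by_cases h3 : q.natDegree = 1
    · obtain ⟨x, hx⟩ := Polynomial.exists_root_of_degree_eq_one
        ((Polynomial.degree_eq_iff_natDegree_eq_of_pos one_pos).2 h3)
      exact ⟨x, hx.dvd (dvd_mul_right _ _)⟩
    · obtain ⟨k, hk⟩ := hn
      obtain ⟨x, hx⟩ := ih s.natDegree (by omega) s rfl ⟨k - 1, by omega⟩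
      exact ⟨x, hx.dvd (dvd_mul_left _ _)⟩

theorem eig_odd {M : Type} [AddCommGroup M] [Module ℝ M] [FiniteDimensional ℝ M]
    (h : Odd (finrank ℝ M)) (T : M →ₗ[ℝ] M) : ∃ (t : ℝ) (v : M), v ≠ 0 ∧ T v = t • v := by
  obtain ⟨t, ht⟩ := root_odd _ T.charpoly T.charpoly_natDegree h
  obtain ⟨v, hv⟩ := ((Module.End.hasEigenvalue_iff_isRoot_charpoly T t).2 ht).exists_hasEigenvector
  exact ⟨t, v, hv.2, hv.apply_eq_smul⟩

theorem fr {M N : Type} [AddCommGroup M] [Module ℝ M] [FiniteDimensional ℝ M] [AddCommGroup N]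
    [Module ℝ N] (f : M →ₗ[ℝ] N) (p : Submodule ℝ M) :
    finrank ℝ p = finrank ℝ (p.map f) + finrank ℝ (p ⊓ ker f : Submodule ℝ M) := by
  rw [← (f.domRestrict p).finrank_range_add_finrank_ker, range_domRestrict, ker_domRestrict,
    ← map_comap_subtype, finrank_map_subtype_eq]

variable {V : Type} [NormedAddCommGroup V] [NormedSpace ℝ V] [FiniteDimensional ℝ V]

theorem cont (B : V →ₗ[ℝ] V →ₗ[ℝ] ℝ) : Continuous fun x => B x x :=
  (continuous_of_finiteDimensional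
    ((LinearMap.toContinuousLinearMap (𝕜 := ℝ) (E := V) (F' := ℝ)).toLinearMap ∘ₗ B)).clm_apply
    continuous_id

omit [FiniteDimensional ℝ V] in
theorem unit {z : V} (hz : z ≠ 0) : ∃ t : ℝ, 0 < t ∧ ‖t • z‖ = 1 :=
  ⟨‖z‖⁻¹, inv_pos.2 (norm_pos_iff.2 hz), norm_smul_inv_norm hz⟩

omit [FiniteDimensional ℝ V] in
theorem hom (B : V →ₗ[ℝ] V →ₗ[ℝ] ℝ) (t : ℝ) (z : V) : B (t • z) (t • z) = t * t * B z z := by
  simp only [map_smul, LinearMap.smul_apply, smul_eq_mul, mul_assoc]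

theorem finsler (A C : V →ₗ[ℝ] V →ₗ[ℝ] ℝ) (W : Submodule ℝ V) (hA : ∀ v, 0 ≤ A v v)
    (h : ∀ z ∈ W, z ≠ 0 → A z z = 0 → 0 < C z z) :
    ∃ n : ℝ, ∀ z ∈ W, z ≠ 0 → 0 < n * A z z + C z z := by
  have hc : IsCompact (Metric.sphere (0 : V) 1 ∩ W) :=
    (isCompact_sphere 0 1).inter_right W.closed_of_finiteDimensional
  obtain ⟨n, hn⟩ := hc.elim_directed_cover (fun n : ℕ => {x | 0 < n * A x x + C x x})
    (fun n => isOpen_lt continuous_const ((continuous_const.mul (cont A)).add (cont C)))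
    (fun x hx => by
      have h0 : x ≠ 0 := by rintro rfl; simp at hx
      rcases (hA x).eq_or_lt with h1 | h1
      · exact Set.mem_iUnion.2 ⟨0, by simpa using h x hx.2 h0 h1.symm⟩
      · obtain ⟨n, hn⟩ := exists_nat_gt (-C x x / A x x)
        rw [div_lt_iff₀ h1] at hn
        exact Set.mem_iUnion.2 ⟨n, show 0 < n * A x x + C x x by linarith⟩)
    (Monotone.directed_le fun a b hab x hx => by
      have h1 : (a : ℝ) ≤ b := by exact_mod_cast hab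
      have h2 : 0 < a * A x x + C x x := hx
      show 0 < b * A x x + C x x
      linarith [mul_le_mul_of_nonneg_right h1 (hA x)])
  refine ⟨n, fun z hz h0 => ?_⟩
  obtain ⟨t, ht, h1⟩ := unit h0
  have h2 : 0 < n * A (t • z) (t • z) + C (t • z) (t • z) :=
    hn ⟨mem_sphere_zero_iff_norm.2 h1, W.smul_mem t hz⟩
  rw [hom, hom] at h2
  exact pos_of_mul_pos_left (a := _) (b := t * t) (by linarith) (mul_self_nonneg t)

/-- the hypothesis on a space of forms -/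
structure Hyp (L : Submodule ℝ (V →ₗ[ℝ] V →ₗ[ℝ] ℝ)) (r : ℕ) : Prop where
  sym : ∀ B ∈ L, ∀ x y, B x y = B y x
  pos : ∃ E ∈ L, ∀ x, x ≠ 0 → 0 < E x x
  cor : ∀ B ∈ L, (∀ x, 0 ≤ B x x) → ker B ≠ ⊥ → r ≤ finrank ℝ (ker B)

variable {L : Submodule ℝ (V →ₗ[ℝ] V →ₗ[ℝ] ℝ)} {r : ℕ}

omit [FiniteDimensional ℝ V] in
theorem Hyp.zero (h : Hyp L r) {B : V →ₗ[ℝ] V →ₗ[ℝ] ℝ} (hB : B ∈ L) (h0 : ∀ x, 0 ≤ B x x) {z : V}
    (hz : B z z = 0) : B z = 0 :=
  (LinearMap.BilinForm.apply_apply_same_eq_zero_iff B h0 ⟨h.sym B hB⟩).1 hz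

theorem Hyp.s0 (h : Hyp L r) {E D : V →ₗ[ℝ] V →ₗ[ℝ] ℝ} (hE : E ∈ L) (hp : ∀ x, x ≠ 0 → 0 < E x x)
    (hD : D ∈ L) (W : Submodule ℝ V) (hW : finrank ℝ V < finrank ℝ W + r) {x : V} (hx : x ≠ 0) :
    ∃ l : ℝ, (∀ v, l * E v v ≤ D v v) ∧ ∃ z ∈ W, z ≠ 0 ∧ D z z = l * E z z := by
  have hs : ∀ v ∈ Metric.sphere (0 : V) 1, v ≠ 0 := fun v hv => by rintro rfl; simp at hv
  obtain ⟨t, -, ht⟩ := unit hx
  obtain ⟨y, hy, hm⟩ := (isCompact_sphere (0 : V) 1).exists_isMinOn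
    ⟨_, mem_sphere_zero_iff_norm.2 ht⟩
    ((cont D).continuousOn.div (cont E).continuousOn fun v hv => (hp v (hs v hv)).ne')
  set l := D y y / E y y with hl
  have h1 : ∀ v, l * E v v ≤ D v v := fun v => by
    by_cases hv : v = 0
    · simp [hv]
    obtain ⟨s, hs0, hs1⟩ := unit hv
    have h2 : l ≤ D (s • v) (s • v) / E (s • v) (s • v) := hm (mem_sphere_zero_iff_norm.2 hs1)
    rwa [hom, hom, mul_div_mul_left _ _ (mul_pos hs0 hs0).ne', le_div_iff₀ (hp v hv)] at h2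
  have hB : D - l • E ∈ L := Submodule.sub_mem (M := V →ₗ[ℝ] V →ₗ[ℝ] ℝ) L hD (L.smul_mem l hE)
  have e : ∀ v, (D - l • E) v v = D v v - l * E v v := fun v => rfl
  have h0 : ∀ v, 0 ≤ (D - l • E) v v := fun v => by rw [e]; linarith [h1 v]
  have h3 : (D - l • E) y = 0 := h.zero hB h0 (by
    rw [e, hl, div_mul_cancel₀ _ (hp y (hs y hy)).ne', sub_self])
  have h4 := h.cor _ hB h0 ((Submodule.ne_bot_iff _).2 ⟨y, h3, hs y hy⟩)
  have h5 := finrank_sup_add_finrank_inf_eq W (ker (D - l • E))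
  have h6 := finrank_le (W ⊔ ker (D - l • E))
  obtain ⟨z, ⟨h7, h8⟩, h9⟩ := (Submodule.ne_bot_iff (W ⊓ ker (D - l • E))).1 fun h7 => by
    rw [h7, finrank_bot] at h5; omega
  refine ⟨l, h1, z, h7, h9, ?_⟩
  have h10 : (D - l • E) z z = 0 := by rw [mem_ker.1 h8]; rfl
  rw [e] at h10
  linarith

theorem Hyp.s1 (h : Hyp L r) {A C : V →ₗ[ℝ] V →ₗ[ℝ] ℝ} (hA : A ∈ L) (h0 : ∀ x, 0 ≤ A x x)
    (hC : C ∈ L) (W : Submodule ℝ V) (hW : finrank ℝ V < finrank ℝ W + r) {x : V} (hx : x ≠ 0)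
    (h1 : A x x = 0) (h2 : C x x ≤ 0) : ∃ z ∈ W, z ≠ 0 ∧ A z z = 0 ∧ C z z ≤ 0 := by
  by_contra hn
  push Not at hn
  obtain ⟨n, h3⟩ := finsler A C W h0 hn
  obtain ⟨E, hE, hp⟩ := h.pos
  obtain ⟨l, h4, z, h5, h6, h7⟩ := h.s0 hE hp (L.add_mem (L.smul_mem n hA) hC) W hW hx
  have e : ∀ v, (n • A + C) v v = n * A v v + C v v := fun v => rfl
  have h8 := h4 x
  rw [e, h1] at h8
  have h9 : l ≤ 0 := by nlinarith [hp x hx]
  have h10 := h3 z h5 h6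
  rw [← e, h7] at h10
  nlinarith [hp z h6]

section Min

variable {A : V →ₗ[ℝ] V →ₗ[ℝ] ℝ} {U : Submodule ℝ V}

theorem dimW (hr : finrank ℝ (ker A) = r) (hU : IsCompl (ker A) U) {y : V} (hy : A y = 0)
    (h0 : y ≠ 0) : finrank ℝ V < finrank ℝ (U ⊔ span ℝ {y} : Submodule ℝ V) + r := by
  rw [finrank_sup_span_singleton fun h => h0 (disjoint_def.1 hU.disjoint y hy h),
    ← finrank_add_eq_of_isCompl hU]
  omega

omit [FiniteDimensional ℝ V] in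
theorem memW {y z : V} (hz : z ∈ U ⊔ span ℝ {y}) : ∃ u ∈ U, ∃ t : ℝ, z = u + t • y := by
  obtain ⟨u, hu, w, hw, rfl⟩ := mem_sup.1 hz
  obtain ⟨t, rfl⟩ := mem_span_singleton.1 hw
  exact ⟨u, hu, t, rfl⟩

theorem Hyp.a1 (h : Hyp L r) (hA : A ∈ L) (h0 : ∀ x, 0 ≤ A x x) (hr : finrank ℝ (ker A) = r)
    (hU : IsCompl (ker A) U) {x : V} (hx : x ≠ 0) (hk : A x = 0) {C : V →ₗ[ℝ] V →ₗ[ℝ] ℝ}
    (hC : C ∈ L) (hc : C x x = 0) {y y' : V} (hy : A y = 0) (hy' : A y' = 0) : C y y' = 0 := by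
  have k1 : ∀ C ∈ L, C x x = 0 → ∀ y, A y = 0 → C y y ≤ 0 := fun C hC hc y hy => by
    by_cases h1 : y = 0
    · simp [h1]
    obtain ⟨z, h2, h3, h4, h5⟩ := h.s1 hA h0 hC _ (dimW hr hU hy h1) hx (by rw [hk]; rfl) hc.le
    obtain ⟨u, hu, t, rfl⟩ := memW h2
    have h6 : u = 0 := disjoint_def.1 hU.disjoint u (by
      have := h.zero hA h0 h4
      rwa [map_add, map_smul, hy, smul_zero, add_zero] at this) hu
    rw [h6, zero_add] at h3 h5
    rw [hom] at h5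
    have h7 : t ≠ 0 := fun h7 => h3 (by rw [h7, zero_smul])
    exact nonpos_of_mul_nonpos_right h5 (mul_self_pos.2 h7)
  have k2 : ∀ y, A y = 0 → C y y = 0 := fun y hy => le_antisymm (k1 C hC hc y hy) (by
    have := k1 (-C) (Submodule.neg_mem (M := V →ₗ[ℝ] V →ₗ[ℝ] ℝ) L hC) (by simpa using hc) y hy
    simpa using this)
  have k3 := k2 (y + y') (by rw [map_add, hy, hy', add_zero])
  simp only [map_add, LinearMap.add_apply, k2 y hy, k2 y' hy', h.sym C hC y' y] at k3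
  linarith

theorem Hyp.a2 (h : Hyp L r) (hA : A ∈ L) (h0 : ∀ x, 0 ≤ A x x) (hr : finrank ℝ (ker A) = r)
    (hU : IsCompl (ker A) U) {x : V} (hx : x ≠ 0) (hk : A x = 0) {B : V →ₗ[ℝ] V →ₗ[ℝ] ℝ}
    (hB : B ∈ L) (hb : B x = 0) {y : V} (hy : A y = 0) : B y = 0 := by
  obtain ⟨n, h3⟩ := finsler A B U h0 fun z hz h1 h2 =>
    absurd (disjoint_def.1 hU.disjoint z (h.zero hA h0 h2) hz) h1
  obtain ⟨E, hE, hp⟩ := h.pos
  have hD := L.add_mem (L.smul_mem n hA) hB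
  obtain ⟨l, h4, z, h5, h6, h7⟩ := h.s0 hE hp hD _ (dimW hr hU hk hx) hx
  have e : ∀ v, (n • A + B) v = n • A v + B v := fun v => rfl
  have hD0 : (n • A + B) x = 0 := by rw [e, hk, hb, smul_zero, add_zero]
  obtain ⟨u, hu, t, rfl⟩ := memW h5
  have h8 : (n • A + B) (u + t • x) (u + t • x) = n * A u u + B u u := by
    rw [map_add (n • A + B), map_smul, hD0, smul_zero, add_zero, h.sym _ hD, map_add (n • A + B),
      map_smul, hD0, smul_zero, add_zero]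
    rfl
  have h9 : 0 ≤ n * A u u + B u u := by
    by_cases h9 : u = 0
    · simp [h9]
    · exact (h3 u hu h9).le
  have h10 : 0 ≤ l := by
    rw [← h8, h7] at h9
    exact nonneg_of_mul_nonneg_left h9 (hp _ h6)
  have h11 : (n • A + B) y = 0 := h.zero hD (fun v => le_trans (mul_nonneg h10 (by
    by_cases hv : v = 0
    · simp [hv]
    · exact (hp v hv).le)) (h4 v)) (by
      rw [e, hy, smul_zero, zero_add]
      exact h.a1 hA h0 hr hU hx hk hB (by rw [hb]; rfl) hy hy)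
  rwa [e, hy, smul_zero, zero_add] at h11

omit [FiniteDimensional ℝ V] in
theorem split (hU : IsCompl (ker A) U) (v : V) : ∃ k, A k = 0 ∧ ∃ u ∈ U, v = k + u := by
  obtain ⟨k, hk, u, hu, e⟩ := mem_sup.1 (hU.sup_eq_top ▸ mem_top : v ∈ ker A ⊔ U)
  exact ⟨k, hk, u, hu, e.symm⟩

theorem Hyp.a3 (h : Hyp L r) (h2 : 2 ≤ r) (hA : A ∈ L) (h0 : ∀ x, 0 ≤ A x x)
    (hU : IsCompl (ker A) U) {B : V →ₗ[ℝ] V →ₗ[ℝ] ℝ} (hB : B ∈ L) (hb : ∀ y, A y = 0 → B y = 0)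
    (hp : ∀ u ∈ U, 0 ≤ B u u) {x : V} (hx : x ≠ 0) (hxU : x ∈ U) (hk : B x x = 0) :
    ∃ u ∈ U, u ≠ 0 ∧ A x u = 0 ∧ B u = 0 := by
  have h1 : ∀ v, 0 ≤ B v v := fun v => by
    obtain ⟨k, hk, u, hu, rfl⟩ := split hU v
    rw [map_add B, hb k hk, zero_add, h.sym B hB, map_add B, hb k hk, zero_add]
    exact hp u hu
  obtain ⟨E, hE, hE0⟩ := h.pos
  have h3 : 0 < A x x := (h0 x).lt_of_ne fun h3 =>
    hx (disjoint_def.1 hU.disjoint x (h.zero hA h0 h3.symm) hxU)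
  have e : ∀ v, ((A x x / E x x) • E - A) v v = A x x / E x x * E v v - A v v := fun v => rfl
  obtain ⟨z, h4, h5, h6, h7⟩ := h.s1 hB h1 (Submodule.sub_mem (M := V →ₗ[ℝ] V →ₗ[ℝ] ℝ) L (L.smul_mem (A x x / E x x) hE) hA)
    (ker (A x)) (by
      have h4 := (A x).finrank_range_add_finrank_ker
      have h5 := finrank_le (LinearMap.range (A x))
      rw [finrank_self] at h5
      omega) hx hk (by rw [e, div_mul_cancel₀ _ (hE0 x hx).ne', sub_self])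
  rw [e] at h7
  have h8 := mul_pos (div_pos h3 (hE0 x hx)) (hE0 z h5)
  have h9 := h.zero hB h1 h6
  obtain ⟨k, hk, u, hu, rfl⟩ := split hU z
  refine ⟨u, hu, ?_, ?_, by rwa [map_add, hb k hk, zero_add] at h9⟩
  · rintro rfl
    rw [add_zero, hk] at h7
    rw [add_zero] at h8
    simp only [LinearMap.zero_apply] at h7
    linarith
  · have h10 := mem_ker.1 h4
    rwa [map_add, h.sym A hA x k, hk, LinearMap.zero_apply, zero_add] at h10

end Min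

theorem main (m : ℕ) : ∀ (V : Type) [NormedAddCommGroup V] [NormedSpace ℝ V]
    [FiniteDimensional ℝ V] (L : Submodule ℝ (V →ₗ[ℝ] V →ₗ[ℝ] ℝ)), finrank ℝ V = m → Hyp L 2 →
    finrank ℝ L ≤ (m / 2) ^ 2 := by
  induction m using Nat.strong_induction_on with
  | _ m ih =>
  intro V _ _ _ L hm h
  rcases subsingleton_or_nontrivial V with hV | hV
  · rw [finrank_zero_of_subsingleton]
    exact Nat.zero_le _
  have ex : ∃ r, ∃ A ∈ L, (∀ x, 0 ≤ A x x) ∧ ker A ≠ ⊥ ∧ finrank ℝ (ker A) = r :=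
    ⟨_, 0, L.zero_mem, fun x => le_rfl, by rw [LinearMap.ker_zero]; exact top_ne_bot, rfl⟩
  classical
  obtain ⟨A, hA, h0, hk, hr⟩ := Nat.find_spec ex
  have h' : Hyp L (Nat.find ex) :=
    ⟨h.sym, h.pos, fun B hB h1 h2 => Nat.find_min' ex ⟨B, hB, h1, h2, rfl⟩⟩
  have h2 : 2 ≤ Nat.find ex := hr ▸ h.cor A hA h0 hk
  generalize Nat.find ex = r at hr h' h2
  obtain ⟨U, hU⟩ := (ker A).exists_isCompl
  obtain ⟨x, hx, hx0⟩ := (Submodule.ne_bot_iff _).1 hk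
  rw [mem_ker] at hx
  obtain ⟨y, hy, hxy⟩ : ∃ y ∈ ker A, y ∉ span ℝ {x} := SetLike.not_le_iff_exists.1 fun h3 => by
    have := finrank_mono h3
    rw [finrank_span_singleton hx0] at this
    omega
  have hUp : ∀ u ∈ U, u ≠ 0 → 0 < A u u := fun u hu h3 => (h0 u).lt_of_ne fun h4 =>
    h3 (disjoint_def.1 hU.disjoint u (h.zero hA h0 h4.symm) hu)
  let e1 : (V →ₗ[ℝ] V →ₗ[ℝ] ℝ) →ₗ[ℝ] ℝ := ⟨⟨fun B => B x x, fun _ _ => rfl⟩, fun _ _ => rfl⟩
  let ev : V → (V →ₗ[ℝ] V →ₗ[ℝ] ℝ) →ₗ[ℝ] (U →ₗ[ℝ] ℝ) := fun z =>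
    ⟨⟨fun B => (B z).domRestrict U, fun _ _ => rfl⟩, fun _ _ => rfl⟩
  let res : (V →ₗ[ℝ] V →ₗ[ℝ] ℝ) →ₗ[ℝ] (U →ₗ[ℝ] U →ₗ[ℝ] ℝ) :=
    ⟨⟨fun B => B.domRestrict₁₂ U U, fun _ _ => rfl⟩, fun _ _ => rfl⟩
  have key : ∀ B ∈ L ⊓ ker e1, ∀ z, A z = 0 → z ≠ 0 → (∀ u ∈ U, B z u = 0) →
      ∀ w, A w = 0 → B w = 0 := fun B hB z hz hz0 hb w hw =>
    h'.a2 hA h0 hr hU hz0 hz hB.1 (LinearMap.ext fun v => by
      obtain ⟨k, hk, u, hu, rfl⟩ := split hU v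
      rw [map_add, h'.a1 hA h0 hr hU hx0 hx hB.1 hB.2 hz hk, hb u hu, add_zero]
      rfl) hw
  have hL : ∀ B ∈ L ⊓ ker e1 ⊓ ker (ev x), ∀ w, A w = 0 → B w = 0 := fun B hB =>
    key B hB.1 x hx hx0 fun u hu => LinearMap.congr_fun (mem_ker.1 hB.2) ⟨u, hu⟩
  have hF : Hyp ((L ⊓ ker e1 ⊓ ker (ev x)).map res) 2 := by
    refine ⟨?_, ⟨res A, ⟨A, ⟨⟨hA, ?_⟩, ?_⟩, rfl⟩, fun u hu => hUp u u.2 (by simpa using hu)⟩, ?_⟩
    · rintro _ ⟨B, hB, rfl⟩ u v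
      exact h.sym B hB.1.1 u v
    · show A x x = 0
      rw [hx]; rfl
    · show (A x).domRestrict U = 0
      rw [hx]; rfl
    · rintro _ ⟨B, hB, rfl⟩ hp hne
      obtain ⟨u0, h3, h4⟩ := (Submodule.ne_bot_iff _).1 hne
      have h5 : (u0 : V) ≠ 0 := by simpa using h4
      obtain ⟨u, hu, h6, h7, h8⟩ := h'.a3 h2 hA h0 hU hB.1.1 (hL B hB) (fun u hu => hp ⟨u, hu⟩) h5
        u0.2 (LinearMap.congr_fun (mem_ker.1 h3) u0)
      by_contra h9
      have h10 : finrank ℝ (ker (res B)) ≠ 0 := fun h10 => hne (Submodule.finrank_eq_zero.1 h10)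
      have h11 : (⟨u, hu⟩ : U) ∈ ker (res B) := LinearMap.ext fun v => by
        show B u v = 0
        rw [h8]; rfl
      obtain ⟨c, hc⟩ := exists_smul_eq_of_finrank_eq_one (K := ℝ) (V := ker (res B)) (by omega)
        (x := ⟨u0, h3⟩) (by simpa using h4) ⟨_, h11⟩
      have h12 : c • (u0 : V) = u := congrArg (fun w : ker (res B) => (w.1 : V)) hc
      rw [← h12, map_smul, smul_eq_mul, mul_eq_zero] at h7
      rcases h7 with h7 | h7
      · exact h6 (by rw [← h12, h7, zero_smul])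
      · exact (hUp u0 u0.2 h5).ne' h7
  have hI : L ⊓ ker e1 ⊓ ker (ev x) ⊓ ker res = ⊥ := (Submodule.eq_bot_iff _).2 fun B hB =>
    LinearMap.ext fun v => LinearMap.ext fun w => by
      obtain ⟨k, hk, u, hu, rfl⟩ := split hU v
      obtain ⟨k', hk', u', hu', rfl⟩ := split hU w
      rw [map_add B, hL B hB.1 k hk, zero_add, h.sym B hB.1.1.1, map_add B, hL B hB.1 k' hk',
        zero_add]
      exact LinearMap.congr_fun₂ (mem_ker.1 hB.2) ⟨u', hu'⟩ ⟨u, hu⟩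
  have d0 := finrank_add_eq_of_isCompl hU
  have d1 := fr (M := V →ₗ[ℝ] V →ₗ[ℝ] ℝ) e1 L
  have d2 := fr (M := V →ₗ[ℝ] V →ₗ[ℝ] ℝ) (N := U →ₗ[ℝ] ℝ) (ev x) (L ⊓ ker e1)
  have d3 := fr (M := V →ₗ[ℝ] V →ₗ[ℝ] ℝ) (N := U →ₗ[ℝ] U →ₗ[ℝ] ℝ) res (L ⊓ ker e1 ⊓ ker (ev x))
  have d4 := finrank_le (L.map e1)
  have d5 := ih (finrank ℝ U) (by omega) U _ rfl hF
  have d6 : finrank ℝ (U →ₗ[ℝ] ℝ) = finrank ℝ U := Subspace.dual_finrank_eq
  have d7 : finrank ℝ ((L ⊓ ker e1).map (ev x)) ≤ 2 * (finrank ℝ U / 2) := by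
    rcases Nat.even_or_odd (finrank ℝ U) with h3 | h3
    · have := finrank_le ((L ⊓ ker e1).map (ev x))
      obtain ⟨j, hj⟩ := h3
      omega
    · have h4 : (L ⊓ ker e1).map (ev x) ≠ ⊤ := fun h4 => by
        obtain ⟨s, hs⟩ := ((ev x).domRestrict (L ⊓ ker e1)).exists_rightInverse_of_surjective
          (by rw [range_domRestrict, h4])
        obtain ⟨t, φ, h5, h6⟩ := eig_odd (d6 ▸ h3) ((ev y).domRestrict (L ⊓ ker e1) ∘ₗ s)
        have h7 : ev x (s φ).1 = φ := LinearMap.congr_fun hs φ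
        have h8 := key _ (s φ).2 (y - t • x) (by rw [map_sub, map_smul, hx, hy, smul_zero, sub_zero])
          (fun h8 => hxy (mem_span_singleton.2 ⟨t, (sub_eq_zero.1 h8).symm⟩)) (fun u hu => by
            have h9 : (s φ).1 y u = t * φ ⟨u, hu⟩ := LinearMap.congr_fun h6 ⟨u, hu⟩
            have h10 : (s φ).1 x u = φ ⟨u, hu⟩ := LinearMap.congr_fun h7 ⟨u, hu⟩
            rw [map_sub, map_smul, LinearMap.sub_apply, LinearMap.smul_apply, h9, h10, smul_eq_mul,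
              sub_self]) x hx
        refine h5 (h7 ▸ ?_)
        show ((s φ).1 x).domRestrict U = 0
        rw [h8]; rfl
      have := finrank_lt h4
      obtain ⟨j, hj⟩ := h3
      omega
  rw [hI, finrank_bot] at d3
  rw [finrank_self] at d4
  have d8 : finrank ℝ U / 2 + 1 ≤ m / 2 := by omega
  calc finrank ℝ L ≤ (finrank ℝ U / 2 + 1) ^ 2 := by rw [add_sq]; omega
    _ ≤ _ := Nat.pow_le_pow_left d8 2

end Pool.Agent.MP_9de622_gt.Quad
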