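import Pool.Agent.MP_9de622_gt.Herm
import Pool.Agent.MP_9de622_gt.Quad

/-! Quadratic maps of spheres with the two-piece property. -/

set_option autoImplicit false

namespace Pool.Agent.MP_9de622_gt.Quad

open Module Submodule LinearMap Matrix

variable {d : ℕ}

/-- constant plus linear plus symmetric quadratic -/
def IsQ (g : (Fin d → ℝ) → ℝ) : Prop :=
  ∃ (c : ℝ) (l : (Fin d → ℝ) →ₗ[ℝ] ℝ) (Q : (Fin d → ℝ) →ₗ[ℝ] (Fin d → ℝ) →ₗ[ℝ] ℝ),
    (∀ x y, Q x y = Q y x) ∧ ∀ x, g x = c + l x + Q x x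

theorem isQ_mon (a : ℝ) (s : Multiset (Fin d)) (hs : s.card ≤ 2) :
    IsQ fun x : Fin d → ℝ => a * (s.map x).prod := by
  obtain h | h | h : s.card = 0 ∨ s.card = 1 ∨ s.card = 2 := by omega
  · rw [Multiset.card_eq_zero.1 h]
    exact ⟨a, 0, 0, fun _ _ => rfl, fun x => by simp⟩
  · obtain ⟨i, rfl⟩ := Multiset.card_eq_one.1 h
    exact ⟨0, a • LinearMap.proj i, 0, fun _ _ => rfl, fun x => by simp⟩
  · obtain ⟨i, j, rfl⟩ := Multiset.card_eq_two.1 h
    refine ⟨0, 0, LinearMap.mk₂ ℝ (fun x y => a / 2 * (x i * y j + x j * y i))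
      (fun _ _ _ => by simp only [Pi.add_apply]; ring)
      (fun _ _ _ => by simp only [Pi.smul_apply, smul_eq_mul]; ring)
      (fun _ _ _ => by simp only [Pi.add_apply]; ring)
      (fun _ _ _ => by simp only [Pi.smul_apply, smul_eq_mul]; ring),
      fun x y => by simp only [LinearMap.mk₂_apply]; ring, fun x => ?_⟩
    simp only [LinearMap.mk₂_apply, Multiset.insert_eq_cons, Multiset.map_cons,
      Multiset.map_singleton, Multiset.prod_cons, Multiset.prod_singleton, LinearMap.zero_apply]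
    ring

theorem isQ_eval (p : MvPolynomial (Fin d) ℝ) (hp : p.totalDegree ≤ 2) :
    IsQ fun x => MvPolynomial.eval x p := by
  have h : ∀ m ∈ p.support, IsQ fun x : Fin d → ℝ => p.coeff m * (m.toMultiset.map x).prod :=
    fun m hm => isQ_mon _ _ (by
      rw [Finsupp.card_toMultiset]
      exact (MvPolynomial.le_totalDegree hm).trans hp)
  choose! c l Q h1 h2 using h
  refine ⟨∑ m ∈ p.support, c m, ∑ m ∈ p.support, l m, ∑ m ∈ p.support, Q m, fun x y => ?_,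
    fun x => ?_⟩
  · simp only [LinearMap.sum_apply]
    exact Finset.sum_congr rfl fun m hm => h1 m hm x y
  · simp only [LinearMap.sum_apply]
    rw [MvPolynomial.eval_eq, ← Finset.sum_add_distrib, ← Finset.sum_add_distrib]
    refine Finset.sum_congr rfl fun m hm => ?_
    rw [← h2 m hm x]
    simp only [Finset.prod_multiset_map_count, Finsupp.toFinset_toMultiset,
      Finsupp.count_toMultiset]

theorem upper (n N : ℕ) (f : (Fin (n + 1) → ℝ) → (Fin N → ℝ))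
    (hq : ∀ j, ∃ p : MvPolynomial (Fin (n + 1)) ℝ, p.totalDegree ≤ 2 ∧
      ∀ x, x ⬝ᵥ x = 1 → f x j = MvPolynomial.eval x p)
    (ht : ∀ (v : Fin N → ℝ) (c : ℝ), IsPreconnected {x | x ⬝ᵥ x = 1 ∧ c ≤ ∑ j, v j * f x j})
    (hs : ∀ (v : Fin N → ℝ) (c : ℝ), (∀ x, x ⬝ᵥ x = 1 → ∑ j, v j * f x j = c) → v = 0) :
    N ≤ n + ((n + 1) / 2) ^ 2 := by
  choose p hp hf using hq
  choose c l Q h1 h2 using fun j => isQ_eval (p j) (hp j)
  let Λ := Fintype.linearCombination ℝ l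
  let Θ := Fintype.linearCombination ℝ Q
  let I : (Fin (n + 1) → ℝ) →ₗ[ℝ] (Fin (n + 1) → ℝ) →ₗ[ℝ] ℝ := dotProductBilin ℝ ℝ
  have hI : ∀ x y, I x y = x ⬝ᵥ y := fun _ _ => rfl
  have hΘ : ∀ v x y, Θ v x y = ∑ j, v j * Q j x y := fun v x y => by
    simp [Θ, Fintype.linearCombination_apply, LinearMap.sum_apply]
  have hh : ∀ v, Λ v = 0 → ∀ x, x ⬝ᵥ x = 1 → ∑ j, v j * f x j = ∑ j, v j * c j + Θ v x x := by
    intro v hv x hx
    have h3 : ∑ j, v j * l j x = 0 := by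
      simpa [Λ, Fintype.linearCombination_apply, LinearMap.sum_apply] using
        LinearMap.congr_fun hv x
    simp only [hf _ x hx, h2, mul_add, Finset.sum_add_distrib, h3, hΘ, add_zero]
  have hm : ∀ B ∈ (ker Λ).map Θ ⊔ span ℝ {I}, ∃ v, Λ v = 0 ∧ ∃ t : ℝ,
      ∀ x y, B x y = Θ v x y + t * (x ⬝ᵥ y) := fun B hB => by
    obtain ⟨_, ⟨v, hv, rfl⟩, w, hw, rfl⟩ := mem_sup.1 hB
    obtain ⟨t, rfl⟩ := mem_span_singleton.1 hw
    exact ⟨v, hv, t, fun _ _ => rfl⟩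
  have hsym : ∀ B ∈ (ker Λ).map Θ ⊔ span ℝ {I}, ∀ x y, B x y = B y x := fun B hB x y => by
    obtain ⟨v, -, t, h⟩ := hm B hB
    simp only [h, hΘ, h1 _ x y, dotProduct_comm x y]
  have hH : Hyp ((ker Λ).map Θ ⊔ span ℝ {I}) 2 := by
    refine ⟨hsym, ⟨I, mem_sup_right (mem_span_singleton_self I), fun x hx => ?_⟩,
      fun B hB h0 hk => ?_⟩
    · rw [hI]
      exact lt_of_le_of_ne (Finset.sum_nonneg fun i _ => mul_self_nonneg _)
        fun h => hx (dotProduct_self_eq_zero.1 h.symm)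
    obtain ⟨v, hv, t, h⟩ := hm B hB
    obtain ⟨z, hz, hz0⟩ := (Submodule.ne_bot_iff _).1 hk
    obtain ⟨s, y, hy, rfl⟩ := Herm.exists_unit hz0
    have hyk : y ∈ ker B := (smul_mem_iff _ (left_ne_zero_of_smul hz0)).1 hz
    have e : ∀ x, x ⬝ᵥ x = 1 → (t - ∑ j, v j * c j ≤ ∑ j, (-v) j * f x j ↔ x ∈ ker B) := by
      intro x hx
      rw [← LinearMap.BilinForm.apply_apply_same_eq_zero_iff B h0 ⟨hsym B hB⟩]
      have h3 := h0 x
      simp only [Pi.neg_apply, neg_mul, Finset.sum_neg_distrib, hh v hv x hx]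
      rw [h, hx] at h3 ⊢
      constructor <;> intro h4 <;> linarith
    have hy' : (-y) ⬝ᵥ (-y) = 1 := by simpa using hy
    obtain ⟨x, ⟨hx, hx'⟩, h3⟩ := (ht (-v) (t - ∑ j, v j * c j)).intermediate_value
      (f := fun x => y ⬝ᵥ x) ⟨hy', (e _ hy').2 (neg_mem hyk)⟩ ⟨hy, (e _ hy).2 hyk⟩
      (Continuous.continuousOn (by simp only [dotProduct]; fun_prop))
      (show (0 : ℝ) ∈ Set.Icc _ _ by simp [hy])
    by_contra h4
    have h5 : finrank ℝ (ker B) ≠ 0 := fun h5 => hk (Submodule.finrank_eq_zero.1 h5)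
    obtain ⟨a, ha⟩ := exists_smul_eq_of_finrank_eq_one (K := ℝ) (V := ker B) (by omega)
      (x := ⟨y, hyk⟩) (fun h6 => by
        have h7 : y = 0 := congrArg Subtype.val h6
        simp [h7] at hy) ⟨x, (e x hx).1 hx'⟩
    have h6 : a • y = x := congrArg Subtype.val ha
    subst h6
    simp only [dotProduct_smul, hy, smul_eq_mul, mul_one] at h3
    simp [h3] at hx
  have d1 := main _ _ _ rfl hH
  have d2 : I ∉ (ker Λ).map Θ := by
    rintro ⟨v, hv, h⟩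
    have h3 := hs v (∑ j, v j * c j + 1) fun x hx => by rw [hh v hv x hx, h, hI, hx]
    have h4 := LinearMap.congr_fun₂ h (Pi.single 0 1) (Pi.single 0 1)
    simp [h3, hI] at h4
  have d3 := finrank_sup_span_singleton (K := ℝ)
    (V := (Fin (n + 1) → ℝ) →ₗ[ℝ] (Fin (n + 1) → ℝ) →ₗ[ℝ] ℝ) d2
  have d4 := fr (N := (Fin (n + 1) → ℝ) →ₗ[ℝ] (Fin (n + 1) → ℝ) →ₗ[ℝ] ℝ) Θ (ker Λ)
  have d5 : ker Λ ⊓ ker Θ = ⊥ := (Submodule.eq_bot_iff _).2 fun v hv =>
    hs v (∑ j, v j * c j) fun x hx => by rw [hh v hv.1 x hx, mem_ker.1 hv.2]; simp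
  have d6 := Λ.finrank_range_add_finrank_ker
  have d7 := finrank_le (LinearMap.range Λ)
  have d8 : finrank ℝ ((Fin (n + 1) → ℝ) →ₗ[ℝ] ℝ) = finrank ℝ (Fin (n + 1) → ℝ) :=
    Subspace.dual_finrank_eq
  rw [d5, finrank_bot] at d4
  rw [finrank_fin_fun] at d1 d6 d8
  omega

theorem quad_gr {k r m : ℕ} (e : (Fin k ⊕ Fin k) ⊕ Fin r ≃ Fin d) (s : Fin m → Fin k × Fin k)
    (j : Fin (d + m)) : ∃ p : MvPolynomial (Fin d) ℝ, p.totalDegree ≤ 2 ∧
      ∀ x, Herm.gr e s x j = MvPolynomial.eval x p := by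
  have t2 : ∀ a b : Fin d,
      (MvPolynomial.X a * MvPolynomial.X b : MvPolynomial (Fin d) ℝ).totalDegree ≤ 2 := fun a b =>
    (MvPolynomial.totalDegree_mul _ _).trans (by simp)
  refine Fin.addCases (fun i => ⟨MvPolynomial.X i, by simp, fun x => by simp [Herm.gr]⟩)
    (fun i => ⟨MvPolynomial.X (e (.inl (.inl (s i).1))) * MvPolynomial.X (e (.inl (.inl (s i).2))) +
      MvPolynomial.X (e (.inl (.inr (s i).1))) * MvPolynomial.X (e (.inl (.inr (s i).2))) -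
      MvPolynomial.X (e (.inl (.inl (s i).1))) * MvPolynomial.X (e (.inl (.inr (s i).2))) +
      MvPolynomial.X (e (.inl (.inr (s i).1))) * MvPolynomial.X (e (.inl (.inl (s i).2))),
      ?_, fun x => by simp [Herm.gr, Herm.Q, Herm.re, Herm.im]⟩) j
  exact (MvPolynomial.totalDegree_add _ _).trans (max_le ((MvPolynomial.totalDegree_sub _ _).trans
    (max_le ((MvPolynomial.totalDegree_add _ _).trans (max_le (t2 _ _) (t2 _ _))) (t2 _ _)))
    (t2 _ _))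

theorem lower (n N : ℕ) (hn : 1 ≤ n) (h1 : n + 1 ≤ N) (h2 : N ≤ n + ((n + 1) / 2) ^ 2) :
    ∃ f : (Fin (n + 1) → ℝ) → (Fin N → ℝ),
      (∀ j, ∃ p : MvPolynomial (Fin (n + 1)) ℝ, p.totalDegree ≤ 2 ∧
        ∀ x, f x j = MvPolynomial.eval x p) ∧ Function.Injective f ∧
      (∀ x w, fderiv ℝ f x w = 0 → w = 0) ∧
      (∀ (v : Fin N → ℝ) (c : ℝ), IsPreconnected {x | x ⬝ᵥ x = 1 ∧ c ≤ ∑ j, v j * f x j}) ∧
      ∀ (v : Fin N → ℝ) (c : ℝ), (∀ x, x ⬝ᵥ x = 1 → ∑ j, v j * f x j = c) → v = 0 := by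
  obtain ⟨m, rfl⟩ := Nat.exists_eq_add_of_le h1
  obtain ⟨e⟩ : Nonempty ((Fin ((n + 1) / 2) ⊕ Fin ((n + 1) / 2)) ⊕ Fin ((n + 1) % 2)
      ≃ Fin (n + 1)) := ⟨Fintype.equivFinOfCardEq (by simp; omega)⟩
  let i0 : Fin ((n + 1) / 2) := ⟨0, by omega⟩
  obtain ⟨s⟩ : Nonempty (Fin m ↪ {p : Fin ((n + 1) / 2) × Fin ((n + 1) / 2) // p ≠ (i0, i0)}) :=
    Function.Embedding.nonempty_of_card_le (by
      simp only [Fintype.card_fin, Fintype.card_subtype_compl, Fintype.card_prod,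
        Fintype.card_unique]
      rw [← sq]
      omega)
  refine ⟨Herm.gr e fun j => (s j).1, quad_gr e _, fun x y h => funext fun i => ?_,
    Herm.fderiv_gr e _, fun v c => ?_, fun v c h => Herm.substantial_gr e
      (Subtype.val_injective.comp s.injective) (fun j => (s j).2) h⟩
  · simpa [Herm.gr] using congrFun h (Fin.castAdd m i)
  · simp only [Herm.height]
    exact Herm.tpp_herm e _ (i0 := i0) (by simp [fun j => (s j).2]) _ c

end Pool.Agent.MP_9de622_gt.Quad
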